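import Mathlib
import Pool.Agent.P.MP_cab928_co.KK

set_option autoImplicit false

open Finset

namespace Pool.Agent.Results.MP_cab928_co.Localized

/-- The generalised binomial coefficient `x (x - 1) ... (x - k + 1) / k!` for real `x`. -/
noncomputable def gbinom (x : ℝ) (k : ℕ) : ℝ := (∏ j ∈ range k, (x - j)) / (k.factorial : ℝ)

/-- The degree of a vertex set `I`: the number of edges containing it. -/
def deg {V : Type*} [DecidableEq V] (H : Finset (Finset V)) (I : Finset V) : ℕ :=
  (H.filter fun e => I ⊆ e).card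

/-- `x(I)`: the largest real solution `x` of `d(I) = binom (x - i) (q - i)`. -/
noncomputable def xSet {V : Type*} [DecidableEq V] (H : Finset (Finset V)) (q i : ℕ)
    (I : Finset V) : ℝ :=
  sSup {x : ℝ | (deg H I : ℝ) = gbinom (x - i) (q - i)}

/-- `x(T)`: the maximum of `x(I)` over the `i`-subsets `I` of `T`. -/
noncomputable def xClique {V : Type*} [DecidableEq V] (H : Finset (Finset V)) (q i : ℕ)
    (T : Finset V) : ℝ :=
  sSup (xSet H q i '' {I : Finset V | I ⊆ T ∧ I.card = i})

/-- The `t`-cliques: `t`-sets of vertices all of whose `q`-subsets are edges. -/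
def cliques {V : Type*} [Fintype V] [DecidableEq V] (H : Finset (Finset V)) (q t : ℕ) :
    Finset (Finset V) :=
  (powersetCard t univ).filter fun T => powersetCard q T ⊆ H

theorem result {V : Type*} [Fintype V] [DecidableEq V] (t q i : ℕ) (hi : 1 ≤ i) (hiq : i < q)
    (hqt : q ≤ t) (H : Finset (Finset V)) (hH : ∀ e ∈ H, e.card = q) :
    ∑ T ∈ cliques H q t, 1 / gbinom (xClique H q i T - q) (t - q) ≤
      (H.card : ℝ) / (t.choose q : ℝ) := by
  obtain ⟨r, rfl⟩ : ∃ r, q = i + (r + 1) := ⟨q - i - 1, by omega⟩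
  obtain ⟨j, rfl⟩ : ∃ j, t = i + (r + 1 + j) := ⟨t - (i + (r + 1)), by omega⟩
  have e1 : i + (r + 1 + j) - (i + (r + 1)) = j := by omega
  have e2 : i + (r + 1) - i = r + 1 := by omega
  rw [e1]
  refine Pool.Agent.P.MP_cab928_co.main i r j H hH (xSet H (i + (r + 1)) i)
    (xClique H (i + (r + 1)) i) ?_ ?_
  · intro I _
    unfold xSet
    rw [e2]
    exact Pool.Agent.P.MP_cab928_co.sSup_root i r (Nat.cast_nonneg _)
  · intro T I hIT hI
    exact le_csSup (Set.toFinite _).bddAbove ⟨I, ⟨hIT, hI⟩, rfl⟩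

end Pool.Agent.Results.MP_cab928_co.Localized
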